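import Mathlib
import Pool.Agent.Y22.LM2

set_option autoImplicit false
set_option linter.unusedSectionVars false
set_option linter.dupNamespace false

/-! Comparison of two translates of an entire function which behaves like the Riemann xi function
(generic version of `Pool.Agent.V11273.DX.Pair`). -/

namespace Pool.Agent.V11139.SX

open Set Polynomial Complex Filter Topology
open Pool.Agent.Y22.LM (q q_eq q_nonneg norm_eval_pow4)

noncomputable section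

/-- The hypotheses on the function; the central line is the imaginary axis. -/
class SX (XX : ℂ → ℂ) : Prop where
  diff : Differentiable ℂ XX
  approx : ∃ p : ℕ → ℂ[X], (∀ (N : ℕ) (z : ℂ), (p N).eval z = 0 → XX z = 0) ∧
    TendstoLocallyUniformly (fun (N : ℕ) (z : ℂ) => (p N).eval z) XX atTop ∧
    ∀ (N : ℕ) (h t : ℝ), ‖(p N).eval (-h + t * I : ℂ)‖ = ‖(p N).eval (h + t * I : ℂ)‖
  strip : ∀ b : ℂ, XX b = 0 → |b.re| ≤ 1 / 2
  even : ∀ z : ℂ, XX (-z) = XX z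
  conj : ∀ z : ℂ, XX ((starRingEnd ℂ) z) = (starRingEnd ℂ) (XX z)
  real_ne : ∀ b : ℂ, b.im = 0 → XX b ≠ 0
  far : ∀ x y : ℝ, 1 / 2 ≤ x → x < y → ‖XX (x : ℂ)‖ < ‖XX (y : ℂ)‖

variable {XX : ℂ → ℂ} [SX XX]

omit [SX XX] in
lemma q_mono2 {β x h1 h2 : ℝ} (h12 : h1 ^ 2 ≤ h2 ^ 2) (hc : 2 * β ^ 2 ≤ 2 * x ^ 2 + h1 ^ 2 + h2 ^ 2) :
    q β x h1 ≤ q β x h2 := by
  rw [q_eq, q_eq]
  nlinarith [mul_nonneg (sub_nonneg.2 h12) (sub_nonneg.2 hc)]

omit [SX XX] in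
lemma poly_le {p : ℂ[X]} {t h1 h2 : ℝ}
    (hsym : ∀ h : ℝ, ‖p.eval (-h + t * I : ℂ)‖ = ‖p.eval (h + t * I : ℂ)‖)
    (h12 : h1 ^ 2 ≤ h2 ^ 2) (hc : ∀ b ∈ p.roots, 2 * b.re ^ 2 ≤ 2 * (t - b.im) ^ 2 + h1 ^ 2 + h2 ^ 2) :
    ‖p.eval (h1 + t * I : ℂ)‖ ≤ ‖p.eval (h2 + t * I : ℂ)‖ := by
  have h4 : ‖p.eval (h1 + t * I : ℂ)‖ ^ 4 ≤ ‖p.eval (h2 + t * I : ℂ)‖ ^ 4 := by
    rw [norm_eval_pow4 hsym, norm_eval_pow4 hsym]
    refine mul_le_mul_of_nonneg_left ?_ (by positivity)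
    exact Multiset.prod_map_le_prod_map₀ _ _ (fun b _ => q_nonneg _ _ _) fun b hb => q_mono2 h12 (hc b hb)
  exact le_of_pow_le_pow_left₀ (by norm_num) (norm_nonneg _) h4

lemma XX_le {t h1 h2 : ℝ} (h12 : h1 ^ 2 ≤ h2 ^ 2)
    (hc : ∀ b : ℂ, XX b = 0 → 2 * b.re ^ 2 ≤ 2 * (t - b.im) ^ 2 + h1 ^ 2 + h2 ^ 2) :
    ‖XX (h1 + t * I : ℂ)‖ ≤ ‖XX (h2 + t * I : ℂ)‖ := by
  obtain ⟨p, hp1, hp2, hp3⟩ := SX.approx (XX := XX)
  have hpt : ∀ z : ℂ, Tendsto (fun N => ‖(p N).eval z‖) atTop (𝓝 ‖XX z‖) := fun z =>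
    ((tendstoLocallyUniformlyOn_univ.mpr hp2).tendsto_at (Set.mem_univ z)).norm
  refine le_of_tendsto_of_tendsto (hpt _) (hpt _) (Eventually.of_forall fun N => ?_)
  exact poly_le (fun h => hp3 N h t) h12 fun b hb => hc b (hp1 N b (Polynomial.isRoot_of_mem_roots hb))

/-- No zero of `XX` has the point `z` in its disc. -/
def Fr (XX : ℂ → ℂ) (h : ℝ) (z : ℂ) : Prop := ∀ b : ℂ, XX b = 0 → b.re ^ 2 < (z.im - b.im) ^ 2 + z.re ^ 2 + h ^ 2

lemma le_of_Fr' {h : ℝ} {z : ℂ} (hh : 0 ≤ h) (hz : 0 ≤ z.re)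
    (hF : ∀ b : ℂ, XX b = 0 → b.re ^ 2 ≤ (z.im - b.im) ^ 2 + z.re ^ 2 + h ^ 2) : ‖XX (z - h)‖ ≤ ‖XX (z + h)‖ := by
  have h1 : (z - h : ℂ) = ((z.re - h : ℝ) : ℂ) + z.im * I := by
    apply Complex.ext <;> simp
  have h2 : (z + h : ℂ) = ((z.re + h : ℝ) : ℂ) + z.im * I := by
    apply Complex.ext <;> simp
  rw [h1, h2]
  refine XX_le (by nlinarith [mul_nonneg hz hh]) fun b hb => ?_
  have := hF b hb
  nlinarith

lemma le_of_Fr {h : ℝ} {z : ℂ} (hh : 0 ≤ h) (hz : 0 ≤ z.re) (hF : Fr XX h z) : ‖XX (z - h)‖ ≤ ‖XX (z + h)‖ :=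
  le_of_Fr' hh hz fun b hb => (hF b hb).le

lemma ne_of_Fr {h : ℝ} {z : ℂ} (hh : 0 ≤ h) (hz : 0 ≤ z.re) (hF : Fr XX h z) : XX (z + h) ≠ 0 := by
  intro h0
  have h1 := hF _ h0
  simp only [add_re, ofReal_re, add_im, ofReal_im, add_zero, sub_self] at h1
  nlinarith [mul_nonneg hz hh]

lemma Fr_far {h : ℝ} {z : ℂ} (hz : 1 / 2 < z.re) : Fr XX h z := by
  intro b hb
  have h1 := SX.strip (XX := XX) b hb
  have h2 : b.re ^ 2 ≤ (1 / 2) ^ 2 := by rw [← sq_abs]; gcongr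
  nlinarith [sq_nonneg (z.im - b.im), sq_nonneg h]

lemma Fr_mono {h : ℝ} {z w : ℂ} (hz : 0 ≤ z.re) (hF : Fr XX h z) (h1 : w.im = z.im) (h2 : z.re ≤ w.re) : Fr XX h w := by
  intro b hb
  have := hF b hb
  rw [h1]
  nlinarith

/-- the domain -/
def DD (XX : ℂ → ℂ) (h : ℝ) : Set ℂ := {z : ℂ | 0 < z.re ∧ Fr XX h z}

lemma XX_finite (K : Set ℂ) (hK : IsCompact K) : {z : ℂ | z ∈ K ∧ XX z = 0}.Finite := by
  by_contra hinf
  have hinf : {z : ℂ | z ∈ K ∧ XX z = 0}.Infinite := hinf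
  obtain ⟨x, hx, hacc⟩ := hinf.exists_accPt_of_subset_isCompact hK (fun s hs => hs.1)
  have hfreq : ∃ᶠ z in 𝓝[≠] x, XX z = 0 := by
    rw [accPt_iff_frequently_nhdsNE] at hacc
    exact hacc.mono fun z hz => hz.2
  have hz := AnalyticOnNhd.eqOn_zero_of_preconnected_of_frequently_eq_zero
    (f := XX) (U := Set.univ) (fun s _ => (SX.diff (XX := XX)).analyticAt s) isPreconnected_univ (Set.mem_univ x) hfreq
  have h2 := hz (Set.mem_univ 1)
  have h3 := SX.strip (XX := XX) 1 h2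
  norm_num at h3

lemma DD_open (h : ℝ) : IsOpen (DD XX h) := by
  rw [isOpen_iff_mem_nhds]
  rintro z ⟨hz1, hz2⟩
  have hK : IsCompact (Set.Icc (-1 : ℝ) 1 ×ℂ Set.Icc (z.im - 2) (z.im + 2)) := isCompact_Icc.reProdIm isCompact_Icc
  have hfin := XX_finite (XX := XX) _ hK
  have h1 : ∀ᶠ w : ℂ in 𝓝 z, ∀ b ∈ {b : ℂ | b ∈ (Set.Icc (-1 : ℝ) 1 ×ℂ Set.Icc (z.im - 2) (z.im + 2)) ∧ XX b = 0},
      b.re ^ 2 < (w.im - b.im) ^ 2 + w.re ^ 2 + h ^ 2 := by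
    rw [Filter.eventually_all_finite hfin]
    intro b hb
    have hc : Continuous fun w : ℂ => (w.im - b.im) ^ 2 + w.re ^ 2 + h ^ 2 := by fun_prop
    exact hc.continuousAt.eventually (lt_mem_nhds (hz2 b hb.2))
  have h2 : ∀ᶠ w : ℂ in 𝓝 z, 0 < w.re := Complex.continuous_re.continuousAt.eventually (lt_mem_nhds hz1)
  have h3 : ∀ᶠ w : ℂ in 𝓝 z, |w.im - z.im| < 1 := by
    have hc : Continuous fun w : ℂ => |w.im - z.im| := by fun_prop
    refine hc.continuousAt.eventually (gt_mem_nhds ?_)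
    simp
  filter_upwards [h1, h2, h3] with w g1 g2 g3
  refine ⟨g2, fun b hb => ?_⟩
  have h4 := SX.strip (XX := XX) b hb
  rcases lt_or_ge |b.im - z.im| 2 with h5 | h5
  · refine g1 b ⟨⟨?_, ?_⟩, hb⟩
    · rw [abs_le] at h4
      exact ⟨by linarith, by linarith⟩
    · rw [abs_lt] at h5
      exact ⟨by linarith, by linarith⟩
  · have h6 : 1 ≤ |w.im - b.im| := by
      have := abs_sub_abs_le_abs_sub (b.im - z.im) (w.im - z.im)
      have h7 : |b.im - z.im - (w.im - z.im)| = |w.im - b.im| := by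
        rw [abs_sub_comm]; congr 1; ring
      rw [h7] at this
      linarith
    have h8 : 1 ≤ (w.im - b.im) ^ 2 := by rw [← sq_abs]; nlinarith
    have h9 : b.re ^ 2 ≤ (1 / 2) ^ 2 := by rw [← sq_abs]; gcongr
    nlinarith [sq_nonneg w.re, sq_nonneg h]

lemma DD_conn (h : ℝ) : IsPreconnected (DD XX h) := by
  refine isPreconnected_of_forall (1 : ℂ) fun z hz => ?_
  refine ⟨{w : ℂ | w.im = z.im ∧ z.re ≤ w.re} ∪ {w : ℂ | 1 / 2 < w.re}, ?_, ?_, ?_, ?_⟩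
  · rintro w (⟨h1, h2⟩ | h1)
    · exact ⟨lt_of_lt_of_le hz.1 h2, Fr_mono hz.1.le hz.2 h1 h2⟩
    · rw [Set.mem_ofPred_eq] at h1
      exact ⟨by linarith, Fr_far h1⟩
  · right
    show (1 / 2 : ℝ) < (1 : ℂ).re
    rw [Complex.one_re]; norm_num
  · left
    exact ⟨rfl, le_rfl⟩
  · refine IsPreconnected.union (⟨max z.re 1, z.im⟩ : ℂ) ⟨rfl, le_max_left _ _⟩ ?_ ?_ ?_
    · show (1 / 2 : ℝ) < max z.re 1
      exact lt_of_lt_of_le (by norm_num) (le_max_right _ _)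
    · have hc : Convex ℝ {w : ℂ | w.im = z.im ∧ z.re ≤ w.re} := by
        intro a ha b hb s t hs ht hst
        refine ⟨?_, ?_⟩
        · simp only [add_im, real_smul, mul_im, ofReal_re, ofReal_im, zero_mul, add_zero]
          rw [ha.1, hb.1, ← add_mul, hst, one_mul]
        · simp only [add_re, real_smul, mul_re, ofReal_re, ofReal_im, zero_mul, sub_zero]
          have h1 := mul_le_mul_of_nonneg_left ha.2 hs
          have h2 := mul_le_mul_of_nonneg_left hb.2 ht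
          have h3 : z.re = s * z.re + t * z.re := by rw [← add_mul, hst, one_mul]
          linarith
      exact hc.isPreconnected
    · exact (convex_halfSpace_re_gt (1 / 2)).isPreconnected

/-- strict inequality in the domain -/
theorem lt_of_DD {h : ℝ} (hh : 0 < h) {z : ℂ} (hz : z ∈ DD XX h) : ‖XX (z - h)‖ < ‖XX (z + h)‖ := by
  have hne : ∀ w ∈ DD XX h, XX (w + h) ≠ 0 := fun w hw => ne_of_Fr hh.le hw.1.le hw.2
  have hle : ∀ w ∈ DD XX h, ‖XX (w - h) / XX (w + h)‖ ≤ 1 := by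
    intro w hw
    rw [norm_div, div_le_one (norm_pos_iff.mpr (hne w hw))]
    exact le_of_Fr hh.le hw.1.le hw.2
  refine lt_of_le_of_ne (le_of_Fr hh.le hz.1.le hz.2) fun heq => ?_
  have h1 : ‖XX (z - h) / XX (z + h)‖ = 1 := by
    rw [norm_div, heq, div_self (norm_pos_iff.mpr (hne z hz)).ne']
  have hd : DifferentiableOn ℂ (fun w : ℂ => XX (w - h) / XX (w + h)) (DD XX h) := by
    intro w hw
    have h2 : DifferentiableAt ℂ (fun w : ℂ => XX (w - h)) w :=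
      ((SX.diff (XX := XX)).differentiableAt).comp w (by fun_prop)
    have h3 : DifferentiableAt ℂ (fun w : ℂ => XX (w + h)) w :=
      ((SX.diff (XX := XX)).differentiableAt).comp w (by fun_prop)
    exact (h2.div h3 (hne w hw)).differentiableWithinAt
  have hmax : IsMaxOn (norm ∘ fun w : ℂ => XX (w - h) / XX (w + h)) (DD XX h) z := by
    intro w hw
    show ‖XX (w - h) / XX (w + h)‖ ≤ ‖XX (z - h) / XX (z + h)‖
    rw [h1]
    exact hle w hw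
  have h4 := Complex.norm_eqOn_of_isPreconnected_of_isMaxOn (DD_conn h) (DD_open h) hd hz hmax
  have h5 : ((1 / 2 + h + 1 : ℝ) : ℂ) ∈ DD XX h := ⟨by rw [Complex.ofReal_re]; linarith, Fr_far (by
    rw [Complex.ofReal_re]; linarith)⟩
  have h6 := h4 h5
  simp only [Function.comp_apply, Function.const_apply] at h6
  rw [h1, norm_div, div_eq_one_iff_eq (norm_pos_iff.mpr (hne _ h5)).ne'] at h6
  have e1 : (((1 / 2 + h + 1 : ℝ) : ℂ) - h : ℂ) = ((1 / 2 + 1 : ℝ) : ℂ) := by push_cast; ring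
  have e2 : (((1 / 2 + h + 1 : ℝ) : ℂ) + h : ℂ) = ((1 / 2 + h + 1 + h : ℝ) : ℂ) := by push_cast; ring
  rw [e1, e2] at h6
  have h7 := SX.far (XX := XX) (1 / 2 + 1) (1 / 2 + h + 1 + h) (by norm_num) (by linarith)
  linarith

end

end Pool.Agent.V11139.SX
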