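import Mathlib
import Pool.Agent.V11139.SX.Cnt

set_option autoImplicit false
set_option linter.unusedSectionVars false
set_option linter.dupNamespace false

/-! The number of zeros off the line. -/

namespace Pool.Agent.V11139.SX

open Set Complex Filter Topology
open Pool.Agent.V11273.DX (cnt rouche rouche_aux)
open H370 (mult Bd)

noncomputable section

variable {XX : ℂ → ℂ} [SX XX]

omit [SX XX] in
lemma fs_mono {s t : Set ℂ} (hst : s ⊆ t) (ht : t.Finite) (f : ℂ → ℕ) :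
    ∑ᶠ x ∈ s, f x ≤ ∑ᶠ x ∈ t, f x := by
  rw [finsum_mem_eq_finite_toFinset_sum _ (ht.subset hst), finsum_mem_eq_finite_toFinset_sum _ ht]
  refine Finset.sum_le_sum_of_subset ?_
  intro x hx
  rw [Set.Finite.mem_toFinset] at hx ⊢
  exact hst hx

omit [SX XX] in
lemma zeros_finite {f : ℂ → ℂ} (hf : Differentiable ℂ f) {z0 : ℂ} (h0 : f z0 ≠ 0) (K : Set ℂ) (hK : IsCompact K) :
    {z : ℂ | z ∈ K ∧ f z = 0}.Finite := by
  by_contra hinf
  have hinf : {z : ℂ | z ∈ K ∧ f z = 0}.Infinite := hinf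
  obtain ⟨x, hx, hacc⟩ := hinf.exists_accPt_of_subset_isCompact hK (fun s hs => hs.1)
  have hfreq : ∃ᶠ z in 𝓝[≠] x, f z = 0 := by
    rw [accPt_iff_frequently_nhdsNE] at hacc
    exact hacc.mono fun z hz => hz.2
  have hz := AnalyticOnNhd.eqOn_zero_of_preconnected_of_frequently_eq_zero
    (f := f) (U := Set.univ) (fun s _ => hf.analyticAt s) isPreconnected_univ (Set.mem_univ x) hfreq
  exact h0 (hz (Set.mem_univ z0))

lemma FF_one {h θ : ℝ} (hh : 0 < h) : FF XX h θ 1 ≠ 0 :=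
  FF_ne hh ⟨by simp, Fr_far (by rw [Complex.one_re]; norm_num)⟩

lemma GH_mono {h h' T : ℝ} (hh : 0 ≤ h) (hl : h ≤ h') (hG : GH XX h T) : GH XX h' T := by
  intro b hb
  have := hG b hb
  nlinarith

lemma DD_of_GH {h T : ℝ} (hG : GH XX h T) {z : ℂ} (hz : z.im = T) (h0 : 0 < z.re) : z ∈ DD XX h := by
  refine ⟨h0, fun b hb => ?_⟩
  have := hG b hb
  rw [hz]
  nlinarith

/-- the local count -/
theorem count_le {h θ T1 T2 : ℝ} (hh : 0 < h) (hT : T1 < T2) (h1 : GH XX h T1) (h2 : GH XX h T2) :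
    (RZ XX h θ T1 T2).Finite ∧
    ∑ᶠ z ∈ RZ XX h θ T1 T2, mult (FF XX h θ) z ≤ ∑ᶠ b ∈ XZ XX h T1 T2, mult XX b := by
  have hKc : IsCompact (Set.Icc (0 : ℝ) 1 ×ℂ Set.Icc T1 T2) := isCompact_Icc.reProdIm isCompact_Icc
  have hfin := zeros_finite (FF_diff XX h θ) (FF_one (θ := θ) hh) _ hKc
  have hhalf : ∀ z ∈ RZ XX h θ T1 T2, z.re ≤ 1 / 2 := by
    intro z hz
    by_contra hlt
    push Not at hlt
    exact FF_ne hh ⟨hz.2.1, Fr_far hlt⟩ hz.1
  have hsub : RZ XX h θ T1 T2 ⊆ {z : ℂ | z ∈ Set.Icc (0 : ℝ) 1 ×ℂ Set.Icc T1 T2 ∧ FF XX h θ z = 0} := by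
    intro z hz
    have := hhalf z hz
    exact ⟨⟨⟨hz.2.1.le, by linarith⟩, ⟨hz.2.2.1.le, hz.2.2.2.le⟩⟩, hz.1⟩
  refine ⟨hfin.subset hsub, ?_⟩
  -- the left side of the rectangle
  obtain ⟨x0, hx0, hx1, hx2⟩ : ∃ x0 : ℝ, 0 < x0 ∧ x0 < 1 ∧ ∀ z : ℂ, FF XX h θ z = 0 → 0 < z.re →
      z.re ≤ 1 → T1 ≤ z.im → z.im ≤ T2 → x0 < z.re := by
    have h3 : ∀ᶠ x : ℝ in 𝓝[>] 0, ∀ z ∈ {z : ℂ | z ∈ Set.Icc (0 : ℝ) 1 ×ℂ Set.Icc T1 T2 ∧ FF XX h θ z = 0},
        0 < z.re → x < z.re := by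
      rw [Filter.eventually_all_finite hfin]
      intro z _
      by_cases hz : 0 < z.re
      · have : ∀ᶠ x : ℝ in 𝓝[>] 0, x < z.re := nhdsWithin_le_nhds (gt_mem_nhds hz)
        filter_upwards [this] with x hx _ using hx
      · exact Eventually.of_forall fun x hx => absurd hx hz
    have h4 : ∀ᶠ x : ℝ in 𝓝[>] 0, x < 1 := nhdsWithin_le_nhds (gt_mem_nhds one_pos)
    have h5 : ∀ᶠ x : ℝ in 𝓝[>] 0, 0 < x := self_mem_nhdsWithin
    obtain ⟨x, hx1, hx2, hx3⟩ := (h3.and (h4.and h5)).exists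
    exact ⟨x, hx3, hx2, fun z g1 g2 g3 g4 g5 => hx1 z ⟨⟨⟨g2.le, g3⟩, ⟨g4, g5⟩⟩, g1⟩ g2⟩
  have hbd : ∀ z ∈ Bd x0 1 T1 T2, FF XX h θ z ≠ 0 := by
    intro z hz
    rcases hz with ⟨h3, h4 | h4⟩ | ⟨h3, h4 | h4⟩
    · exact FF_ne hh (DD_of_GH h1 h4 (hx0.trans_le h3.1))
    · exact FF_ne hh (DD_of_GH h2 h4 (hx0.trans_le h3.1))
    · intro h0
      have := hx2 z h0 (by rw [h4]; exact hx0) (by rw [h4]; exact hx1.le) h3.1 h3.2
      rw [h4] at this
      exact lt_irrefl _ this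
    · exact FF_ne hh ⟨by rw [h4]; exact one_pos, Fr_far (by rw [h4]; norm_num)⟩
  -- perturbation
  have hBc : IsCompact (Bd x0 1 T1 T2) := by
    refine (isCompact_Icc.reProdIm isCompact_Icc : IsCompact (Set.Icc x0 1 ×ℂ Set.Icc T1 T2)).of_isClosed_subset ?_
      (H370.Bd_sub hx1.le hT.le)
    have c1 : Continuous fun s : ℂ => s.re := Complex.continuous_re
    have c2 : Continuous fun s : ℂ => s.im := Complex.continuous_im
    have k1 : IsClosed {s : ℂ | s.re ∈ Set.Icc x0 1} := isClosed_Icc.preimage c1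
    have k2 : IsClosed {s : ℂ | s.im ∈ Set.Icc T1 T2} := isClosed_Icc.preimage c2
    have k3 : ∀ c : ℝ, IsClosed {s : ℂ | s.im = c} := fun c => isClosed_eq c2 continuous_const
    have k4 : ∀ c : ℝ, IsClosed {s : ℂ | s.re = c} := fun c => isClosed_eq c1 continuous_const
    exact (k1.inter ((k3 T1).union (k3 T2))).union (k2.inter ((k4 x0).union (k4 1)))
  set G : ℝ → ℝ → ℂ → ℂ := fun r h' z => (r * cexp (θ * I)) * XX (z + h') + cexp (-(θ * I)) * XX (z - h') with hG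
  have hG0 : ∀ z, G 1 h z = FF XX h θ z := by
    intro z
    rw [hG]
    unfold FF
    push_cast
    rw [one_mul]
  have hGc : Continuous fun p : (ℝ × ℝ) × ℂ => G p.1.1 p.1.2 p.2 := by
    rw [hG]
    have c1 : Continuous fun p : (ℝ × ℝ) × ℂ => XX (p.2 + (p.1.2 : ℝ)) := (SX.diff (XX := XX)).continuous.comp (by fun_prop)
    have c2 : Continuous fun p : (ℝ × ℝ) × ℂ => XX (p.2 - (p.1.2 : ℝ)) := (SX.diff (XX := XX)).continuous.comp (by fun_prop)
    have c3 : Continuous fun p : (ℝ × ℝ) × ℂ => ((p.1.1 : ℝ) : ℂ) * cexp (θ * I) := by fun_prop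
    exact (c3.mul c1).add (continuous_const.mul c2)
  have hFc : Continuous (FF XX h θ) := (FF_diff XX h θ).continuous
  have hev : ∀ᶠ p : ℝ × ℝ in 𝓝 (1, h), ∀ z ∈ Bd x0 1 T1 T2, ‖G p.1 p.2 z - FF XX h θ z‖ < ‖FF XX h θ z‖ := by
    refine hBc.eventually_forall_of_forall_eventually (P := fun (p : ℝ × ℝ) (z : ℂ) =>
      ‖G p.1 p.2 z - FF XX h θ z‖ < ‖FF XX h θ z‖) ?_
    intro z hz
    have c1 : Continuous fun p : (ℝ × ℝ) × ℂ => ‖G p.1.1 p.1.2 p.2 - FF XX h θ p.2‖ :=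
      (hGc.sub (hFc.comp continuous_snd)).norm
    have c2 : Continuous fun p : (ℝ × ℝ) × ℂ => ‖FF XX h θ p.2‖ := (hFc.comp continuous_snd).norm
    have h3 : ‖G 1 h z - FF XX h θ z‖ < ‖FF XX h θ z‖ := by
      rw [hG0, sub_self, norm_zero]
      exact norm_pos_iff.mpr (hbd z hz)
    exact (isOpen_lt c1 c2).mem_nhds h3
  have hpath : Tendsto (fun s : ℝ => ((1 + s, h + s) : ℝ × ℝ)) (𝓝[>] 0) (𝓝 (1, h)) := by
    have c : Continuous fun s : ℝ => ((1 + s, h + s) : ℝ × ℝ) := by fun_prop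
    have := c.tendsto 0
    simp only [add_zero] at this
    exact this.mono_left nhdsWithin_le_nhds
  have hev2 := hpath.eventually hev
  have hXfin := XX_finite (XX := XX) (Set.Icc (-1 : ℝ) 1 ×ℂ Set.Icc T1 T2) (isCompact_Icc.reProdIm isCompact_Icc)
  have hev3 : ∀ᶠ s : ℝ in 𝓝[>] 0, ∀ b ∈ {b : ℂ | b ∈ Set.Icc (-1 : ℝ) 1 ×ℂ Set.Icc T1 T2 ∧ XX b = 0},
      b.re ≠ h + s := by
    rw [Filter.eventually_all_finite hXfin]
    intro b _
    by_cases hb : b.re - h = 0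
    · have h5 : ∀ᶠ x : ℝ in 𝓝[>] 0, 0 < x := self_mem_nhdsWithin
      filter_upwards [h5] with s hs hcon
      linarith
    · have h6 : ∀ᶠ s : ℝ in 𝓝[>] 0, s ≠ b.re - h := by
        refine nhdsWithin_le_nhds ?_
        exact isOpen_ne.mem_nhds (Ne.symm hb)
      filter_upwards [h6] with s hs hcon
      exact hs (by linarith)
  have h5 : ∀ᶠ x : ℝ in 𝓝[>] 0, 0 < x := self_mem_nhdsWithin
  obtain ⟨s, hs1, hs2, hs3⟩ := (hev2.and (hev3.and h5)).exists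
  have hh' : 0 < h + s := by linarith
  have hno : ∀ b : ℂ, XX b = 0 → T1 ≤ b.im → b.im ≤ T2 → b.re ≠ h + s := by
    intro b hb hb1 hb2
    have := SX.strip (XX := XX) b hb
    rw [abs_le] at this
    exact hs2 b ⟨⟨⟨by linarith, by linarith⟩, ⟨hb1, hb2⟩⟩, hb⟩
  have g1 := GH_mono hh.le (show h ≤ h + s by linarith) h1
  have g2 := GH_mono hh.le (show h ≤ h + s by linarith) h2
  have hcG := cnt_G (r := 1 + s) (θ := θ) hh' (by linarith) hT g1 g2 hno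
  have hdG : Differentiable ℂ (G (1 + s) (h + s)) := by
    have hd : Differentiable ℂ fun z : ℂ => (((1 + s : ℝ) : ℂ) * cexp (θ * I)) * XX (z + ((h + s : ℝ) : ℂ)) := fun z =>
      (((SX.diff (XX := XX)).differentiableAt).comp z (by fun_prop)).const_mul _
    have hd2 : Differentiable ℂ fun z : ℂ => cexp (-(θ * I)) * XX (z - ((h + s : ℝ) : ℂ)) := fun z =>
      (((SX.diff (XX := XX)).differentiableAt).comp z (by fun_prop)).const_mul _
    exact hd.add hd2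
  have hG0' : ∀ z ∈ Bd 0 1 T1 T2, G (1 + s) (h + s) z ≠ 0 := by
    intro z hz h0
    obtain ⟨k1, k2⟩ := bd_le hh' hT g1 g2 hno z hz
    have k3 : 0 < ‖XX (z + ((h + s : ℝ) : ℂ))‖ := norm_pos_iff.mpr k2
    have k4 := congrArg norm (eq_neg_of_add_eq_zero_left h0)
    rw [norm_neg, norm_mul, norm_mul, norm_mul, nexp, nexp', mul_one, one_mul, Complex.norm_real,
      Real.norm_eq_abs, abs_of_pos (by linarith)] at k4
    nlinarith
  have hGfin := (rouche_aux one_pos hT (fun z _ => hdG.analyticAt z) hG0').1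
  have e1 : cnt (G (1 + s) (h + s)) x0 1 T1 T2 = cnt (FF XX h θ) x0 1 T1 T2 :=
    rouche hx1 hT (fun z _ => (FF_diff XX h θ).analyticAt z) (fun z _ => hdG.analyticAt z) hs1
  have e2 : cnt (G (1 + s) (h + s)) x0 1 T1 T2 ≤ cnt (G (1 + s) (h + s)) 0 1 T1 T2 := by
    refine fs_mono ?_ hGfin _
    rintro z ⟨⟨⟨a1, a2⟩, a3⟩, a4⟩
    exact ⟨⟨⟨hx0.trans a1, a2⟩, a3⟩, a4⟩
  have hse : RZ XX h θ T1 T2 = {s | s ∈ Set.Ioo x0 1 ×ℂ Set.Ioo T1 T2 ∧ FF XX h θ s = 0} := by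
    ext z
    constructor
    · intro hz
      have := hhalf z hz
      exact ⟨⟨⟨hx2 z hz.1 hz.2.1 (by linarith) hz.2.2.1.le hz.2.2.2.le, by
        show z.re < 1
        linarith⟩, hz.2.2⟩, hz.1⟩
    · rintro ⟨⟨⟨a1, a2⟩, a3⟩, a4⟩
      exact ⟨a4, hx0.trans a1, a3⟩
  have e3 : ∑ᶠ z ∈ RZ XX h θ T1 T2, mult (FF XX h θ) z = cnt (FF XX h θ) x0 1 T1 T2 := by
    unfold cnt
    rw [hse]
  have e4 : ∑ᶠ b ∈ XZ XX (h + s) T1 T2, mult XX b ≤ ∑ᶠ b ∈ XZ XX h T1 T2, mult XX b := by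
    refine fs_mono ?_ (XZ_finite hh.le) _
    rintro b ⟨a1, a2, a3⟩
    exact ⟨a1, by linarith, a3⟩
  rw [e3, ← e1]
  refine e2.trans ?_
  have e5 : cnt (G (1 + s) (h + s)) 0 1 T1 T2 = ∑ᶠ b ∈ XZ XX (h + s) T1 T2, mult XX b := hcG
  rw [e5]
  exact e4

/-! ## symmetries -/

lemma mult_conj (b : ℂ) : mult XX ((starRingEnd ℂ) b) = mult XX b := by
  have han : ∀ z, AnalyticAt ℂ XX z := fun z => (SX.diff (XX := XX)).analyticAt z
  unfold H370.mult analyticOrderNatAt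
  congr 1
  obtain ⟨n, hn⟩ := ENat.ne_top_iff_exists.mp (XX_top (XX := XX) b)
  rw [← hn]
  obtain ⟨g, hg, hg0, hfg⟩ := ((han b).analyticOrderAt_eq_natCast).mp hn.symm
  rw [(han _).analyticOrderAt_eq_natCast]
  have hcc : Tendsto (starRingEnd ℂ) (𝓝 ((starRingEnd ℂ) b)) (𝓝 b) := by
    have h1 : Continuous (starRingEnd ℂ : ℂ → ℂ) := Complex.continuous_conj
    have := h1.tendsto ((starRingEnd ℂ) b)
    rwa [Complex.conj_conj] at this
  refine ⟨fun z => (starRingEnd ℂ) (g ((starRingEnd ℂ) z)), ?_, ?_, ?_⟩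
  · rw [analyticAt_iff_eventually_differentiableAt] at hg ⊢
    have h2 := hcc.eventually hg
    filter_upwards [h2] with z hz
    exact differentiableAt_conj_conj_iff.mpr hz
  · show (starRingEnd ℂ) (g ((starRingEnd ℂ) ((starRingEnd ℂ) b))) ≠ 0
    rw [Complex.conj_conj]
    simpa using hg0
  · have h2 := hcc.eventually hfg
    filter_upwards [h2] with z hz
    have h3 : XX z = (starRingEnd ℂ) (XX ((starRingEnd ℂ) z)) := by
      rw [SX.conj (XX := XX), Complex.conj_conj]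
    rw [h3, hz, smul_eq_mul, smul_eq_mul, map_mul, map_pow, map_sub, Complex.conj_conj]

lemma XX_ne_real {b : ℂ} (hb : b.im = 0) : XX b ≠ 0 := SX.real_ne (XX := XX) b hb

lemma XZ_sym {h T : ℝ} (h0 : 0 ≤ h) :
    ∑ᶠ b ∈ XZ XX h (-T) T, mult XX b = 2 * ∑ᶠ b ∈ XZ XX h 0 T, mult XX b := by
  have hset : XZ XX h (-T) T = XZ XX h 0 T ∪ (starRingEnd ℂ) '' (XZ XX h 0 T) := by
    ext b
    constructor
    · rintro ⟨h1, h2, h3, h4⟩
      rcases lt_trichotomy b.im 0 with h5 | h5 | h5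
      · right
        refine ⟨(starRingEnd ℂ) b, ⟨by rw [SX.conj (XX := XX), h1, map_zero], by rw [conj_re]; exact h2, ?_, ?_⟩,
          Complex.conj_conj b⟩
        · rw [conj_im]; linarith
        · rw [conj_im]; linarith
      · exact absurd h1 (XX_ne_real h5)
      · left
        exact ⟨h1, h2, h5, h4⟩
    · rintro (⟨h1, h2, h3, h4⟩ | ⟨a, ⟨h1, h2, h3, h4⟩, rfl⟩)
      · exact ⟨h1, h2, by linarith, h4⟩
      · refine ⟨by rw [SX.conj (XX := XX), h1, map_zero], by rw [conj_re]; exact h2, ?_, ?_⟩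
        · rw [conj_im]; linarith
        · rw [conj_im]; linarith
  have hf := XZ_finite (XX := XX) (h := h) (T1 := 0) (T2 := T) h0
  have hdis : Disjoint (XZ XX h 0 T) ((starRingEnd ℂ) '' (XZ XX h 0 T)) := by
    rw [Set.disjoint_left]
    rintro b ⟨_, _, h3, _⟩ ⟨a, ⟨_, _, h7, _⟩, rfl⟩
    rw [conj_im] at h3
    linarith
  rw [hset, finsum_mem_union hdis hf (hf.image _),
    finsum_mem_image (fun a _ b _ hab => (starRingEnd ℂ).injective hab)]
  have : ∀ a, mult XX ((starRingEnd ℂ) a) = mult XX a := mult_conj (XX := XX)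
  simp only [this]
  ring

/-- all zeros off the line up to the height `T` -/
def OZ (XX : ℂ → ℂ) (h θ T : ℝ) : Set ℂ := {z | FF XX h θ z = 0 ∧ z.re ≠ 0 ∧ |z.im| ≤ T}

lemma GH_neg {h T : ℝ} (hG : GH XX h T) : GH XX h (-T) := by
  intro b hb
  have := hG (-b) (by rw [SX.even (XX := XX)]; exact hb)
  rw [neg_re, neg_im] at this
  nlinarith

theorem off_le {h θ T T' : ℝ} (hh : 0 < h) (hT : 0 ≤ T) (hTT : T < T') (hG : GH XX h T') :
    (OZ XX h θ T).Finite ∧ ∑ᶠ z ∈ OZ XX h θ T, mult (FF XX h θ) z ≤ 4 * ∑ᶠ b ∈ XZ XX h 0 T', mult XX b := by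
  obtain ⟨f1, c1⟩ := count_le (θ := θ) hh (show -T' < T' by linarith) (GH_neg hG) hG
  obtain ⟨f2, c2⟩ := count_le (θ := -θ) hh (show -T' < T' by linarith) (GH_neg hG) hG
  rw [XZ_sym hh.le] at c1 c2
  have hsub : OZ XX h θ T ⊆ RZ XX h θ (-T') T' ∪ (fun z => -z) '' (RZ XX h (-θ) (-T') T') := by
    rintro z ⟨h1, h2, h3⟩
    rw [abs_le] at h3
    rcases lt_or_gt_of_ne h2 with h4 | h4
    · right
      refine ⟨-z, ⟨by rw [FF_neg, neg_neg]; exact h1, ?_, ?_, ?_⟩, by simp⟩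
      · rw [neg_re]; linarith
      · rw [neg_im]; linarith
      · rw [neg_im]; linarith
    · left
      exact ⟨h1, h4, by linarith, by linarith⟩
  have hfu := f1.union (f2.image (fun z => -z))
  refine ⟨hfu.subset hsub, (fs_mono hsub hfu _).trans ?_⟩
  have hdis : Disjoint (RZ XX h θ (-T') T') ((fun z => -z) '' (RZ XX h (-θ) (-T') T')) := by
    rw [Set.disjoint_left]
    rintro b ⟨_, h3, _⟩ ⟨a, ⟨_, h7, _⟩, rfl⟩
    simp only [neg_re] at h3
    linarith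
  rw [finsum_mem_union hdis f1 (f2.image _),
    finsum_mem_image (fun a _ b _ hab => neg_injective hab)]
  have : ∀ a, mult (FF XX h θ) (-a) = mult (FF XX h (-θ)) a := by
    intro a
    rw [← mult_comp_neg]
    congr 1
    funext w
    exact FF_neg XX h θ w
  simp only [this]
  omega

end

end Pool.Agent.V11139.SX
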