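import Mathlib
import Pool.Agent.V11139.SX.Cnt2
import Pool.Agent.Y22.RX2

set_option autoImplicit false
set_option linter.unusedSectionVars false
set_option linter.dupNamespace false

/-! The density of the zeros off the line (generic version of `Pool.Agent.V11273.DX.Dens`). -/

namespace Pool.Agent.V11139.SX

open Set Complex Filter Topology MeasureTheory
open H370 (mult Bd)

noncomputable section

variable {XX : ℂ → ℂ} [SX XX]

/-- A density bound for the zeros off the imaginary axis, counted with multiplicity. -/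
def DN (XX : ℂ → ℂ) : Prop := ∀ c : ℝ, c < 1 → ∃ C : ℝ, 0 < C ∧ ∀ δ T : ℝ, 0 ≤ δ → 2 ≤ T → ∀ S : Finset ℂ,
  (∀ s ∈ S, XX s = 0 ∧ δ ≤ |s.re| ∧ 0 < s.im ∧ s.im ≤ T) →
    ∑ s ∈ S, (mult XX s : ℝ) ≤ C * T ^ (1 - c * δ) * Real.log T

lemma mult_one_le {b : ℂ} (hb : XX b = 0) : (1 : ℝ) ≤ (mult XX b : ℝ) := by
  have ha := (SX.diff (XX := XX)).analyticAt b
  have h1 : analyticOrderNatAt XX b ≠ 0 := by
    intro h1
    have h2 : analyticOrderAt XX b = 0 := by
      have := Nat.cast_analyticOrderNatAt (XX_top (XX := XX) b)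
      rw [h1] at this
      simpa using this.symm
    exact (ha.analyticOrderAt_eq_zero.1 h2) hb
  unfold H370.mult
  exact_mod_cast Nat.one_le_iff_ne_zero.2 h1

/-- there are good heights in `(T, 2T]` -/
lemma exists_good (hD : DN XX) : ∃ K : ℝ, 0 < K ∧ ∀ T h : ℝ, 2 ≤ T → K / Real.log T ≤ h →
    ∃ T' : ℝ, T < T' ∧ T' ≤ 2 * T ∧ GH XX h T' := by
  classical
  obtain ⟨C, hC, H⟩ := hD (1 / 2) (by norm_num)
  obtain ⟨K, hK⟩ : ∃ K : ℝ, K = max 1 (4 * Real.log (48 * C)) := ⟨_, rfl⟩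
  have hK1 : 1 ≤ K := by rw [hK]; exact le_max_left _ _
  have hK2 : 4 * Real.log (48 * C) ≤ K := by rw [hK]; exact le_max_right _ _
  refine ⟨K, by linarith, fun T h hT hKh => ?_⟩
  have hL0 : 0 < Real.log T := Real.log_pos (by linarith)
  have hKL : K ≤ h * Real.log T := by rwa [div_le_iff₀ hL0] at hKh
  have hh : 0 < h := by
    by_contra hcon
    push Not at hcon
    nlinarith
  by_contra hcon
  push Not at hcon
  obtain ⟨T1, hT1⟩ : ∃ T1 : ℝ, T1 = 2 * T + 1 := ⟨_, rfl⟩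
  have hT1p : 0 < T1 := by linarith
  have hL1 : Real.log T ≤ Real.log T1 := Real.log_le_log (by linarith) (by linarith)
  have hL10 : 0 < Real.log T1 := by linarith
  have hfin : {b : ℂ | XX b = 0 ∧ h ≤ |b.re| ∧ 0 < b.im ∧ b.im ≤ T1}.Finite := by
    refine (XX_finite (XX := XX) (Set.Icc (-1 : ℝ) 1 ×ℂ Set.Icc 0 T1) (isCompact_Icc.reProdIm isCompact_Icc)).subset ?_
    rintro b ⟨h1, h2, h3, h4⟩
    have := SX.strip (XX := XX) b h1
    rw [abs_le] at this
    exact ⟨⟨⟨by linarith, by linarith⟩, ⟨h3.le, h4⟩⟩, h1⟩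
  obtain ⟨Z, hZ⟩ : ∃ Z : Finset ℂ, Z = hfin.toFinset := ⟨_, rfl⟩
  have hZm : ∀ b, b ∈ Z ↔ XX b = 0 ∧ h ≤ |b.re| ∧ 0 < b.im ∧ b.im ≤ T1 := by
    intro b
    rw [hZ, Set.Finite.mem_toFinset]
    rfl
  -- the sum of the distances
  have hsum := Pool.Agent.Y22.RX.sum_le Z (fun b => |b.re|) (h0 := h) (A := C * T1 * Real.log T1)
    (a := 1 / 2 * Real.log T1) (by positivity) hh.le (by positivity) (fun b hb => ((hZm b).1 hb).2.1)
    (fun u hu => by
      have h1 := H u T1 (by linarith) (by linarith) (Z.filter fun b => u ≤ |b.re|) (fun b hb => by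
        rw [Finset.mem_filter, hZm] at hb
        exact ⟨hb.1.1, hb.2, hb.1.2.2.1, hb.1.2.2.2⟩)
      have h2 : ((Z.filter (fun b => u ≤ |b.re|)).card : ℝ) ≤
          ∑ s ∈ Z.filter (fun b => u ≤ |b.re|), (mult XX s : ℝ) := by
        rw [Finset.card_eq_sum_ones]
        push_cast
        exact Finset.sum_le_sum fun b hb => by
          rw [Finset.mem_filter, hZm] at hb
          exact mult_one_le hb.1.1
      refine (h2.trans h1).trans (le_of_eq ?_)
      rw [sub_eq_add_neg, Real.rpow_add hT1p, Real.rpow_one, Real.rpow_def_of_pos hT1p]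
      have e : Real.log T1 * -(1 / 2 * u) = -(1 / 2 * Real.log T1 * u) := by ring
      rw [e]
      ring)
  -- the size
  obtain ⟨x, hx⟩ : ∃ x : ℝ, x = h * Real.log T1 := ⟨_, rfl⟩
  have hxK : K ≤ x := by
    rw [hx]
    exact hKL.trans (by gcongr)
  have hexp : (x + 2) * Real.exp (-(x / 2)) ≤ 1 / (12 * C) := by
    have h1 : x + 2 ≤ 4 * Real.exp (x / 4) := by
      have := Real.add_one_le_exp (x / 4)
      linarith
    have h2 : Real.exp (-(x / 4)) ≤ 1 / (48 * C) := by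
      have h3 : Real.exp (-(x / 4)) ≤ Real.exp (-Real.log (48 * C)) := by
        apply Real.exp_le_exp.2
        linarith
      rwa [Real.exp_neg, Real.exp_neg, Real.exp_log (by positivity), ← one_div (48 * C), ← Real.exp_neg] at h3
    calc (x + 2) * Real.exp (-(x / 2)) ≤ (4 * Real.exp (x / 4)) * Real.exp (-(x / 2)) := by gcongr
      _ = 4 * Real.exp (-(x / 4)) := by
          rw [mul_assoc, ← Real.exp_add]
          congr 2
          ring
      _ ≤ 4 * (1 / (48 * C)) := by gcongr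
      _ = 1 / (12 * C) := by field_simp; norm_num
  have hS : ∑ b ∈ Z, |b.re| ≤ T / 4 := by
    refine hsum.trans ?_
    have e1 : C * T1 * Real.log T1 * Real.exp (-(1 / 2 * Real.log T1 * h)) * (h + 1 / (1 / 2 * Real.log T1)) =
        C * T1 * ((x + 2) * Real.exp (-(x / 2))) := by
      have e2 : Real.log T1 * (h + 1 / (1 / 2 * Real.log T1)) = x + 2 := by
        rw [hx]
        field_simp
      have e3 : -(1 / 2 * Real.log T1 * h) = -(x / 2) := by rw [hx]; ring
      rw [e3]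
      calc _ = C * T1 * ((Real.log T1 * (h + 1 / (1 / 2 * Real.log T1))) * Real.exp (-(x / 2))) := by ring
        _ = _ := by rw [e2]
    rw [e1]
    calc C * T1 * ((x + 2) * Real.exp (-(x / 2))) ≤ C * T1 * (1 / (12 * C)) := by gcongr
      _ = T1 / 12 := by field_simp
      _ ≤ T / 4 := by linarith
  -- the cover
  have hcov : Set.Ioc T (2 * T) ⊆ ⋃ b ∈ Z, Set.Icc (b.im - |b.re|) (b.im + |b.re|) := by
    intro t ht
    have hbad := hcon t ht.1 ht.2
    unfold GH at hbad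
    push Not at hbad
    obtain ⟨b, hb1, hb2⟩ := hbad
    have h1 := SX.strip (XX := XX) b hb1
    have h2 : |t - b.im| ≤ |b.re| := by
      apply sq_le_sq.1
      nlinarith [sq_nonneg h]
    have h3 : h ≤ |b.re| := by
      rw [← abs_of_pos hh]
      apply sq_le_sq.1
      nlinarith [sq_nonneg (t - b.im)]
    rw [abs_le] at h2
    simp only [Set.mem_iUnion]
    refine ⟨b, (hZm b).2 ⟨hb1, h3, ?_, ?_⟩, ?_, ?_⟩
    · linarith [ht.1]
    · linarith [ht.2]
    · linarith
    · linarith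
  have hvol : ENNReal.ofReal T ≤ ENNReal.ofReal (T / 2) := by
    calc ENNReal.ofReal T = volume (Set.Ioc T (2 * T)) := by
          rw [Real.volume_Ioc]
          congr 1
          ring
      _ ≤ volume (⋃ b ∈ Z, Set.Icc (b.im - |b.re|) (b.im + |b.re|)) := measure_mono hcov
      _ ≤ ∑ b ∈ Z, volume (Set.Icc (b.im - |b.re|) (b.im + |b.re|)) := measure_biUnion_finset_le _ _
      _ = ∑ b ∈ Z, ENNReal.ofReal (2 * |b.re|) := by
          refine Finset.sum_congr rfl fun b _ => ?_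
          rw [Real.volume_Icc]
          congr 1
          ring
      _ = ENNReal.ofReal (∑ b ∈ Z, 2 * |b.re|) := by
          rw [ENNReal.ofReal_sum_of_nonneg fun b _ => by positivity]
      _ ≤ ENNReal.ofReal (T / 2) := by
          apply ENNReal.ofReal_le_ofReal
          rw [← Finset.mul_sum]
          linarith
  rw [ENNReal.ofReal_le_ofReal_iff (by positivity)] at hvol
  linarith

/-- the number of zeros off the line -/
theorem dens (hD : DN XX) {c : ℝ} (hc : c < 1) : ∃ C K : ℝ, 0 < C ∧ 0 < K ∧ ∀ T h θ : ℝ, 2 ≤ T →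
    K / Real.log T ≤ h → h ≤ 1 / 2 → (OZ XX h θ T).Finite ∧
      ((∑ᶠ z ∈ OZ XX h θ T, mult (FF XX h θ) z : ℕ) : ℝ) ≤ C * T ^ (1 - c * h) * Real.log T := by
  obtain ⟨K, hK, hgood⟩ := exists_good hD
  obtain ⟨C2, hC2, hD2⟩ := hD c hc
  refine ⟨8 * C2 * 2 ^ (1 + |c|), K, by positivity, hK, ?_⟩
  intro T h θ hT hKh hh2
  obtain ⟨L, hL⟩ : ∃ L : ℝ, L = Real.log T := ⟨_, rfl⟩
  have hL0 : 0 < L := by rw [hL]; exact Real.log_pos (by linarith)
  have hh : 0 < h := by
    refine lt_of_lt_of_le ?_ hKh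
    rw [← hL]
    positivity
  have hT0 : 0 < T := by linarith
  have hlog2 : Real.log (2 * T) ≤ 2 * L := by
    rw [Real.log_mul (by norm_num) hT0.ne', ← hL]
    have : Real.log 2 ≤ L := by rw [hL]; exact Real.log_le_log (by norm_num) hT
    linarith
  obtain ⟨T', hT'1, hT'2, hG⟩ := hgood T h hT hKh
  obtain ⟨f1, f2⟩ := off_le (θ := θ) hh hT0.le hT'1 hG
  refine ⟨f1, ?_⟩
  have hT'0 : 0 < T' := by linarith
  have hXf := XZ_finite (XX := XX) (h := h) (T1 := 0) (T2 := T') hh.le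
  have g2 := hD2 h T' hh.le (by linarith) hXf.toFinset (fun b hb => by
    rw [Set.Finite.mem_toFinset] at hb
    obtain ⟨a1, a2, a3, a4⟩ := hb
    exact ⟨a1, a2.le.trans (le_abs_self _), a3, a4.le⟩)
  have h3 : ((∑ᶠ z ∈ OZ XX h θ T, mult (FF XX h θ) z : ℕ) : ℝ) ≤ 4 * (C2 * T' ^ (1 - c * h) * Real.log T') := by
    have h4 : ((∑ᶠ z ∈ OZ XX h θ T, mult (FF XX h θ) z : ℕ) : ℝ) ≤ ((4 * ∑ᶠ b ∈ XZ XX h 0 T', mult XX b : ℕ) : ℝ) := by
      exact_mod_cast f2
    refine h4.trans ?_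
    rw [finsum_mem_eq_finite_toFinset_sum _ hXf]
    push_cast
    linarith
  refine h3.trans ?_
  have hch0 : c * h ≤ h := by nlinarith
  have hch : 0 ≤ 1 - c * h := by linarith
  have hch2 : 1 - c * h ≤ 1 + |c| := by
    have h7 := neg_abs_le c
    have h8 := abs_nonneg c
    nlinarith
  have h5 : T' ^ (1 - c * h) ≤ 2 ^ (1 + |c|) * T ^ (1 - c * h) := by
    calc T' ^ (1 - c * h) ≤ (2 * T) ^ (1 - c * h) := Real.rpow_le_rpow hT'0.le hT'2 hch
      _ = 2 ^ (1 - c * h) * T ^ (1 - c * h) := Real.mul_rpow (by norm_num) hT0.le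
      _ ≤ 2 ^ (1 + |c|) * T ^ (1 - c * h) := by
        apply mul_le_mul_of_nonneg_right _ (by positivity)
        exact Real.rpow_le_rpow_of_exponent_le (by norm_num) hch2
  have h6 : Real.log T' ≤ 2 * L := (Real.log_le_log hT'0 hT'2).trans hlog2
  have h7 : 0 ≤ Real.log T' := Real.log_nonneg (by linarith)
  have h8 : 0 < T ^ (1 - c * h) := Real.rpow_pos_of_pos hT0 _
  rw [← hL]
  calc 4 * (C2 * T' ^ (1 - c * h) * Real.log T') ≤
      4 * (C2 * (2 ^ (1 + |c|) * T ^ (1 - c * h)) * (2 * L)) := by gcongr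
    _ = 8 * C2 * 2 ^ (1 + |c|) * T ^ (1 - c * h) * L := by ring

end

end Pool.Agent.V11139.SX
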