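import Pool.Agent.V11139.RL.Abs
import Pool.Agent.V11139.SX.Dens
import Pool.Agent.Y22.RX3

set_option autoImplicit false

/-! The completed L-function of the modular discriminant satisfies `SX` and `DN`. -/

namespace Pool.Agent.V11139.SX

open Complex
open H370 (mult)
open Pool.Agent.H128R3.GJB (X1)
open Pool.Agent.V11139.RL (ZD)

/-- the completed L-function of the discriminant, centred at `0` -/
noncomputable def XD (z : ℂ) : ℂ :=
  mellin (fun y : ℝ => ((Pool.Agent.H128R3.JD.DelK.Dl y : ℝ) : ℂ)) (6 + z)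

lemma XD_eq (B : ℝ) (z : ℂ) : X1 (Pool.Agent.H128R3.JD.DelHk.hk B) z = XD z := by
  show mellin (fun y : ℝ => ((Pool.Agent.H128R3.JD.DelK.Dl y : ℝ) : ℂ)) ((((12 : ℝ) / 2 : ℝ) : ℂ) + z) = _
  have h6 : (((12 : ℝ) / 2 : ℝ) : ℂ) = 6 := by
    push_cast
    norm_num
  rw [h6]
  rfl

theorem sx_delta {u : ℂ} {X : ℂ → ℂ} (hu : u ≠ 0) (h : ZD X) (hX : ∀ z, XD z = u * X z) : SX XD := by
  obtain ⟨B, F, K, hB, hE⟩ := Pool.Agent.Y22.RX.ev_delta
  have e : X1 (Pool.Agent.H128R3.JD.DelHk.hk B) = XD := funext (XD_eq B)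
  have hre := Pool.Agent.Y22.RX.real_ne hB rfl (fun y hy => Pool.Agent.H128R3.JD.DelK.Dl_pos hy)
  rw [e] at hE hre
  have hstrip : ∀ b : ℂ, XD b = 0 → |b.re| ≤ 1 / 2 := fun b hb => h.strip b (by
    rw [hX] at hb
    exact (mul_eq_zero.1 hb).resolve_left hu)
  refine ⟨hE.fdiff, hE.approx, hstrip, hE.even, hE.fconj, fun b hb => ?_, fun x y hx hxy => ?_⟩
  · have h1 : b = ((b.re : ℝ) : ℂ) := by apply Complex.ext <;> simp [hb]
    rw [h1]
    exact hre _
  · have h1 := hE.strict (t := 0) (h0 := 1 / 2) (by norm_num) (fun b hb hb2 => by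
      have := hstrip b hb
      linarith)
    have h2 := h1 (Set.mem_Ici.2 hx) (Set.mem_Ici.2 (hx.trans hxy.le)) hxy
    simpa using h2

theorem mult_delta {u : ℂ} {X : ℂ → ℂ} (hu : u ≠ 0) (h : Differentiable ℂ X) (hX : ∀ z, XD z = u * X z) (s : ℂ) :
    mult XD s = analyticOrderNatAt X s := by
  have e : XD = fun s => u * X s := funext hX
  rw [e, mult_const h hu]
  rfl

theorem dn_delta {u : ℂ} {X : ℂ → ℂ} (hu : u ≠ 0) (h : ZD X) (hX : ∀ z, XD z = u * X z) : DN XD := by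
  intro c hc
  obtain ⟨C, hC, H⟩ := h.dens c hc
  refine ⟨C, hC, fun δ T hδ hT S hS => ?_⟩
  simp only [mult_delta hu h.diff hX]
  refine H δ T hδ hT S fun s hs => ?_
  obtain ⟨a, b⟩ := hS s hs
  refine ⟨?_, b⟩
  rw [hX] at a
  exact (mul_eq_zero.1 a).resolve_left hu

end Pool.Agent.V11139.SX
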